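import Pool.Agent.Q276.PL.Stm

/-!
# Project PL (helper276), job B3: an interval and a dyadic range
-/

set_option autoImplicit false

namespace Pool.Agent.Q65.PL

open Polynomial Pool.Agent.W223.HZ Pool.Agent.W223.PL Pool.Agent.Q276.PL

/-- an integer interval is finite -/
theorem finite_int (a b : ℝ) : {d : ℤ | a ≤ d ∧ (d : ℝ) ≤ b}.Finite := by
  refine (Set.finite_Icc ⌈a⌉ ⌊b⌋).subset ?_
  rintro d ⟨h1, h2⟩
  exact ⟨Int.ceil_le.2 h1, Int.le_floor.2 h2⟩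

/-- a squarefree number with few prime factors which is large has a large prime factor -/
theorem big_prime {d M : ℤ} {z P₀ : ℝ} {K : ℕ} (hd0 : d ≠ 0) (hsq : Squarefree d)
    (hK : d.natAbs.primeFactors.card ≤ K) (hP : 1 ≤ P₀) (hPz : P₀ ^ K ≤ z)
    (hg : z < (Int.gcd d M : ℝ)) :
    ∃ p : ℕ, p.Prime ∧ P₀ < p ∧ (p : ℤ) ∣ M ∧ (p : ℤ) ∣ d := by
  by_contra hcon
  push Not at hcon
  obtain ⟨g, hgg⟩ : ∃ g : ℕ, g = Int.gcd d M := ⟨_, rfl⟩
  rw [← hgg] at hg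
  have hgd : (g : ℤ) ∣ d := by
    rw [hgg]
    exact Int.gcd_dvd_left ..
  have hgM : (g : ℤ) ∣ M := by
    rw [hgg]
    exact Int.gcd_dvd_right ..
  have hgn : g ∣ d.natAbs := Int.natCast_dvd.1 hgd
  have hsqg : Squarefree g := (Int.squarefree_natAbs.2 hsq).squarefree_of_dvd hgn
  have hsub : g.primeFactors ⊆ d.natAbs.primeFactors :=
    Nat.primeFactors_mono hgn (Int.natAbs_ne_zero.2 hd0)
  have h1 : ((∏ p ∈ g.primeFactors, p : ℕ) : ℝ) ≤ P₀ ^ g.primeFactors.card := by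
    push_cast
    rw [← Finset.prod_const]
    refine Finset.prod_le_prod (fun p _ => Nat.cast_nonneg p) (fun p hp => ?_)
    have hpp := Nat.prime_of_mem_primeFactors hp
    have hpg : (p : ℤ) ∣ (g : ℤ) := Int.natCast_dvd_natCast.2 (Nat.dvd_of_mem_primeFactors hp)
    by_contra hlt
    exact hcon p hpp (not_le.1 hlt) (hpg.trans hgM) (hpg.trans hgd)
  rw [Nat.prod_primeFactors_of_squarefree hsqg] at h1
  have h2 : P₀ ^ g.primeFactors.card ≤ P₀ ^ K :=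
    pow_le_pow_right₀ hP ((Finset.card_le_card hsub).trans hK)
  linarith

theorem b3 (hPIG : StmtPIG) (hB2 : StmtB2) : StmtB3 := by
  obtain ⟨C, hC1, hC⟩ := hPIG
  refine ⟨2 * C, by linarith, ?_⟩
  intro D V σ z P₀ a m K hD hm hσ hm2 hCm hV hVD hz hzD hP hPz
  have hD1 : 1 ≤ D := by linarith
  have hm0 : (1 : ℝ) ≤ m := by exact_mod_cast hm
  obtain ⟨L, hL⟩ : ∃ L : ℝ, L = D ^ (1 / (8 * (m : ℝ))) := ⟨_, rfl⟩
  have hL0 : 0 ≤ L := by
    rw [hL]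
    exact Real.rpow_nonneg (by linarith) _
  rw [← hL]
  obtain ⟨S, hS⟩ : ∃ S : Set ℤ, S = {d : ℤ | a ≤ d ∧ (d : ℝ) ≤ a + L ∧ D ≤ d ∧ (d : ℝ) ≤ 2 * D ∧
    Squarefree d ∧ d.natAbs.primeFactors.card ≤ K ∧
    ∃ x y : ℤ, Fund d x y ∧ V ≤ y ∧ (y : ℝ) < 2 * V} := ⟨_, rfl⟩
  rw [← hS]
  have hSf : S.Finite := by
    refine (finite_int D (2 * D)).subset ?_
    rw [hS]
    rintro d ⟨_, _, h3, h4, _⟩
    exact ⟨h3, h4⟩
  obtain ⟨M, hM0, hM, E, hE, hEc, hEg⟩ := hC D V σ z m hSf.toFinset (by linarith) hm hσ hm2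
    (by nlinarith) hV hVD hz hzD (by
      intro d hd
      rw [Set.Finite.mem_toFinset, hS] at hd
      exact ⟨hd.2.2.1, hd.2.2.2.1, hd.2.2.2.2.1, hd.2.2.2.2.2.2⟩) (by
      intro d hd d' hd'
      rw [Set.Finite.mem_toFinset, hS] at hd hd'
      rw [← hL, abs_le]
      constructor
      · linarith [hd.1, hd'.2.1]
      · linarith [hd'.1, hd.2.1])
  obtain ⟨T, hT⟩ : ∃ T : Set ℤ, T = {d : ℤ | a ≤ d ∧ (d : ℝ) ≤ a + L ∧ ∃ p : ℕ, p.Prime ∧ P₀ < p ∧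
    (p : ℤ) ∣ M ∧ (p : ℤ) ∣ d} := ⟨_, rfl⟩
  have hTf : T.Finite := by
    refine (finite_int a (a + L)).subset ?_
    rw [hT]
    rintro d ⟨h3, h4, _⟩
    exact ⟨h3, h4⟩
  have hT2 : (T.ncard : ℝ) ≤ Real.log |(M : ℝ)| / Real.log 2 * (L / P₀ + 1) := by
    rw [hT]
    exact hB2 M a L P₀ hM0 hL0 hP
  have hsub : S ⊆ (E : Set ℤ) ∪ T := by
    intro d hd
    by_cases hdE : d ∈ E
    · exact Or.inl hdE
    · refine Or.inr ?_
      have hg := hEg d (Finset.mem_sdiff.2 ⟨hSf.mem_toFinset.2 hd, hdE⟩)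
      rw [hS] at hd
      obtain ⟨h1, h2, h3, _, h5, h6, _⟩ := hd
      have hd0 : d ≠ 0 := by
        rintro rfl
        rw [Int.cast_zero] at h3
        linarith
      rw [hT]
      exact ⟨h1, h2, big_prime hd0 h5 h6 hP hPz hg⟩
  have h1 : S.ncard ≤ E.card + T.ncard := by
    refine (Set.ncard_le_ncard hsub (E.finite_toSet.union hTf)).trans ?_
    refine (Set.ncard_union_le _ _).trans ?_
    rw [Set.ncard_coe_finset]
  have h2 : (S.ncard : ℝ) ≤ (E.card : ℝ) + (T.ncard : ℝ) := by exact_mod_cast h1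
  have hlogD : 0 ≤ Real.log D := Real.log_nonneg hD1
  have hX : 0 ≤ z * D ^ (1 / (16 * (m : ℝ))) * ((m : ℝ) ^ 2 * Real.log D) ^ 3 := by
    have : 0 ≤ D ^ (1 / (16 * (m : ℝ))) := Real.rpow_nonneg (by linarith) _
    positivity
  have h3 : C * z * D ^ (1 / (16 * (m : ℝ))) * ((m : ℝ) ^ 2 * Real.log D) ^ 3 ≤
      2 * C * z * D ^ (1 / (16 * (m : ℝ))) * ((m : ℝ) ^ 2 * Real.log D) ^ 3 := by
    have := mul_nonneg (by linarith : (0 : ℝ) ≤ C) hX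
    nlinarith
  have hlog2 : (1 : ℝ) / 2 ≤ Real.log 2 := by
    have := Real.log_two_gt_d9
    linarith
  have h4 : Real.log |(M : ℝ)| / Real.log 2 ≤ 2 * C * (m : ℝ) ^ 2 * Real.log D := by
    rw [div_le_iff₀ (by linarith)]
    have h5 : 0 ≤ C * (m : ℝ) ^ 2 * Real.log D := by positivity
    nlinarith
  have h6 : 0 ≤ L / P₀ + 1 := by positivity
  have h7 := mul_le_mul_of_nonneg_right h4 h6
  linarith

end Pool.Agent.Q65.PL
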