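import Pool.Agent.Q276.PL.Stm

/-!
# Project PL (helper276), job B4: the block
-/

set_option autoImplicit false

namespace Pool.Agent.Q65.PL

open Polynomial Pool.Agent.W223.HZ Pool.Agent.W223.PL Pool.Agent.Q276.PL

theorem b4 (hB3 : StmtB3) : StmtB4 := by
  obtain ⟨C, hC1, hC⟩ := hB3
  refine ⟨C, hC1, ?_⟩
  intro D σ z P₀ m K hD hm hσ hm2 hCm hz hzD hP hPz
  have hD1 : 1 ≤ D := by linarith
  have hD0 : 0 < D := by linarith
  obtain ⟨L, hL⟩ : ∃ L : ℝ, L = D ^ (1 / (8 * (m : ℝ))) := ⟨_, rfl⟩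
  have hL0 : 0 < L := by
    rw [hL]
    exact Real.rpow_pos_of_pos hD0 _
  obtain ⟨B, hB⟩ : ∃ B : ℝ, B = C * z * D ^ (1 / (16 * (m : ℝ))) * ((m : ℝ) ^ 2 * Real.log D) ^ 3 +
      C * (m : ℝ) ^ 2 * Real.log D * (L / P₀ + 1) := ⟨_, rfl⟩
  rw [← hL, ← hB]
  have hlogD : 0 ≤ Real.log D := Real.log_nonneg hD1
  have hB0 : 0 ≤ B := by
    rw [hB]
    have : 0 ≤ D ^ (1 / (16 * (m : ℝ))) := Real.rpow_nonneg hD0.le _
    positivity
  obtain ⟨S, hS⟩ : ∃ S : ℕ → ℕ → Set ℤ, S = fun (j i : ℕ) => {d : ℤ | D + j * L ≤ d ∧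
    (d : ℝ) ≤ D + j * L + L ∧ D ≤ d ∧ (d : ℝ) ≤ 2 * D ∧
    Squarefree d ∧ d.natAbs.primeFactors.card ≤ K ∧
    ∃ x y : ℤ, Fund d x y ∧ (2 : ℝ) ^ i ≤ y ∧ (y : ℝ) < 2 * 2 ^ i} := ⟨_, rfl⟩
  have hSf : ∀ j i, (S j i).Finite := by
    intro j i
    refine (Set.finite_Icc ⌈D⌉ ⌊2 * D⌋).subset ?_
    rw [hS]
    rintro d ⟨_, _, h3, h4, _⟩
    exact ⟨Int.ceil_le.2 h3, Int.le_floor.2 h4⟩
  have hSb : ∀ j i, (2 : ℝ) ^ i ≤ D ^ σ → ((S j i).ncard : ℝ) ≤ B := by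
    intro j i hi
    have := hC D (2 ^ i) σ z P₀ (D + j * L) m K hD hm hσ hm2 hCm (one_le_pow₀ (by norm_num)) hi hz hzD
      hP hPz
    rw [← hL, ← hB] at this
    rw [hS]
    exact this
  -- the index set
  obtain ⟨I, hI⟩ : ∃ I : Finset (ℕ × ℕ), I = Finset.range (⌊D / L⌋₊ + 1) ×ˢ
    (Finset.range (⌊2 * σ * Real.log D⌋₊ + 1)).filter (fun i => (2 : ℝ) ^ i ≤ D ^ σ) := ⟨_, rfl⟩
  have hcov : {d : ℤ | D ≤ d ∧ (d : ℝ) ≤ 2 * D ∧ Squarefree d ∧ d.natAbs.primeFactors.card ≤ K ∧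
      ∃ x y : ℤ, Fund d x y ∧ (y : ℝ) ≤ D ^ σ} ⊆
      ((I.biUnion fun p => (hSf p.1 p.2).toFinset : Finset ℤ) : Set ℤ) := by
    rintro d ⟨h1, h2, h3, h4, x, y, hxy, hy⟩
    have hy1 : 1 ≤ y := hxy.2.1
    obtain ⟨n, rfl⟩ : ∃ n : ℕ, y = n := ⟨y.toNat, by omega⟩
    have hn : n ≠ 0 := by
      rintro rfl
      simp at hy1
    obtain ⟨i, hi⟩ : ∃ i : ℕ, i = Nat.log 2 n := ⟨_, rfl⟩
    have hi1 : 2 ^ i ≤ n := by
      rw [hi]
      exact Nat.pow_log_le_self 2 hn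
    have hi2 : n < 2 ^ (i + 1) := by
      rw [hi]
      exact Nat.lt_pow_succ_log_self (by norm_num) n
    have hi3 : (2 : ℝ) ^ i ≤ n := by exact_mod_cast hi1
    have hi4 : (n : ℝ) < 2 * 2 ^ i := by
      have : (n : ℝ) < 2 ^ (i + 1) := by exact_mod_cast hi2
      rw [pow_succ] at this
      linarith
    have hyn : (n : ℝ) ≤ D ^ σ := by exact_mod_cast hy
    have hi5 : (2 : ℝ) ^ i ≤ D ^ σ := hi3.trans hyn
    have hi6 : (i : ℝ) ≤ 2 * σ * Real.log D := by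
      have e1 := Real.log_le_log (by positivity) hi5
      rw [Real.log_pow, Real.log_rpow hD0] at e1
      have e2 : (1 : ℝ) / 2 ≤ Real.log 2 := by
        have := Real.log_two_gt_d9
        linarith
      have e3 : (i : ℝ) * (1 / 2) ≤ i * Real.log 2 :=
        mul_le_mul_of_nonneg_left e2 (Nat.cast_nonneg i)
      linarith
    obtain ⟨j, hj⟩ : ∃ j : ℕ, j = ⌊((d : ℝ) - D) / L⌋₊ := ⟨_, rfl⟩
    have hj0 : 0 ≤ ((d : ℝ) - D) / L := div_nonneg (by linarith) hL0.le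
    have hj1 : (j : ℝ) ≤ ((d : ℝ) - D) / L := by
      rw [hj]
      exact Nat.floor_le hj0
    have hj2 : ((d : ℝ) - D) / L < j + 1 := by
      rw [hj]
      exact Nat.lt_floor_add_one _
    rw [le_div_iff₀ hL0] at hj1
    rw [div_lt_iff₀ hL0] at hj2
    have hj3 : j ≤ ⌊D / L⌋₊ := by
      rw [hj]
      exact Nat.floor_le_floor (div_le_div_of_nonneg_right (by linarith) hL0.le)
    rw [Finset.mem_coe, Finset.mem_biUnion]
    refine ⟨(j, i), ?_, ?_⟩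
    · rw [hI, Finset.mem_product, Finset.mem_filter, Finset.mem_range, Finset.mem_range]
      exact ⟨by simp only; omega, Nat.lt_succ_of_le (Nat.le_floor hi6), hi5⟩
    · rw [Set.Finite.mem_toFinset, hS]
      refine ⟨by linarith, by linarith, h1, h2, h3, h4, x, n, hxy, ?_, ?_⟩
      · exact_mod_cast hi3
      · exact_mod_cast hi4
  have h1 := Set.ncard_le_ncard hcov (Finset.finite_toSet _)
  rw [Set.ncard_coe_finset] at h1
  have h2 : (I.biUnion fun p => (hSf p.1 p.2).toFinset).card ≤ I.card * ⌊B⌋₊ := by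
    refine Finset.card_biUnion_le_card_mul _ _ _ fun p hp => ?_
    rw [hI, Finset.mem_product, Finset.mem_filter] at hp
    rw [← Set.ncard_eq_toFinset_card _ (hSf p.1 p.2)]
    exact Nat.le_floor (hSb p.1 p.2 hp.2.2)
  have h3 : (I.card : ℝ) ≤ (D / L + 1) * (2 * σ * Real.log D + 1) := by
    have e1 : I.card ≤ (⌊D / L⌋₊ + 1) * (⌊2 * σ * Real.log D⌋₊ + 1) := by
      rw [hI, Finset.card_product, Finset.card_range]
      refine Nat.mul_le_mul_left _ ?_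
      refine (Finset.card_filter_le _ _).trans ?_
      rw [Finset.card_range]
    have e2 : (I.card : ℝ) ≤ ((⌊D / L⌋₊ : ℝ) + 1) * ((⌊2 * σ * Real.log D⌋₊ : ℝ) + 1) := by
      exact_mod_cast e1
    refine e2.trans ?_
    have e3 : (⌊D / L⌋₊ : ℝ) ≤ D / L := Nat.floor_le (by positivity)
    have e4 : (⌊2 * σ * Real.log D⌋₊ : ℝ) ≤ 2 * σ * Real.log D := Nat.floor_le (by positivity)
    exact mul_le_mul (by linarith) (by linarith) (by positivity) (by positivity)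
  have h4 : ((I.biUnion fun p => (hSf p.1 p.2).toFinset).card : ℝ) ≤ (I.card : ℝ) * (⌊B⌋₊ : ℝ) := by
    exact_mod_cast h2
  have h5 : (⌊B⌋₊ : ℝ) ≤ B := Nat.floor_le hB0
  calc _ ≤ ((I.biUnion fun p => (hSf p.1 p.2).toFinset).card : ℝ) := by exact_mod_cast h1
    _ ≤ (I.card : ℝ) * (⌊B⌋₊ : ℝ) := h4
    _ ≤ (D / L + 1) * (2 * σ * Real.log D + 1) * B :=
        mul_le_mul h3 h5 (Nat.cast_nonneg _) (by positivity)

end Pool.Agent.Q65.PL
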